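import Pool.Agent.R467.DR.Defs

set_option autoImplicit false

namespace Pool.Agent.R467.DR

/-- DR-DOM -/
theorem dom : DOM := by
  classical
  intro g h m _ F C j S hS hcov
  let φ : Bool × ZMod g → Bool × Fin h × ZMod g × ZMod g := fun p => (p.1, j, p.2, 0)
  let T : Finset (Bool × Fin h × ZMod g × ZMod g) := ((Finset.univ : Finset Bool) ×ˢ S).image φ
  have hT : Dom (Arc F C) T := by
    intro v _
    obtain ⟨s, hs, hy⟩ := hcov v.2.2.2
    refine ⟨(!v.1, j, s, 0), ?_, ?_⟩
    · exact Finset.mem_image.2 ⟨(!v.1, s), Finset.mem_product.2 ⟨Finset.mem_univ _, hs⟩, rfl⟩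
    · left
      exact ⟨by simp, hy⟩
  have hcard : T.card ≤ 2 * m := by
    calc T.card ≤ ((Finset.univ : Finset Bool) ×ˢ S).card := Finset.card_image_le
      _ = 2 * S.card := by simp [Finset.card_product]
      _ ≤ 2 * m := by omega
  have h1 : gam (Arc F C) ≤ T.card := by
    unfold gam
    exact Nat.sInf_le ⟨T, hT, rfl⟩
  exact h1.trans hcard

end Pool.Agent.R467.DR
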