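import Pool.Agent.R467.DR.Defs

/-! Project DR (MP_9a58dc_co), part PAR: choice of the parameters. -/

namespace Pool.Agent.R467.DR

open Filter

namespace PARaux

theorem ev_pow (K : ℝ) (n : ℕ) (c : ℝ) (hc : 0 < c) :
    ∀ᶠ x : ℝ in atTop, K * x ^ n ≤ Real.exp (c * x) := by
  have h := isLittleO_pow_exp_pos_mul_atTop n hc
  have h2 := h.def (c := 1 / (|K| + 1)) (by positivity)
  filter_upwards [h2, eventually_ge_atTop 0] with x hx hx0
  rw [Real.norm_of_nonneg (by positivity), Real.norm_of_nonneg (Real.exp_pos _).le] at hx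
  have h3 : (|K| + 1) * x ^ n ≤ Real.exp (c * x) := by
    rw [div_mul_eq_mul_div, one_mul, le_div_iff₀ (by positivity)] at hx
    linarith
  have h4 : K ≤ |K| + 1 := by linarith [le_abs_self K]
  exact (mul_le_mul_of_nonneg_right h4 (by positivity)).trans h3

/-- main numerical estimate -/
theorem core (ε : ℝ) (hε : 0 < ε) (hε1 : ε < 1) (m : ℕ) (hm : 8 / ε + 2 ≤ m) :
    ∀ᶠ L : ℝ in atTop, ∀ t f h N : ℕ, (t : ℝ) ≤ (1 - ε) * m * L + 1 →
      L ^ 2 ≤ f → (f : ℝ) ≤ L ^ 2 + 1 → Real.exp L / (m * f ^ 2) - 1 ≤ h → 1 ≤ t →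
      ((h : ℝ) - 1) / (2 * t) - 1 ≤ N →
      2 * t ≤ (m - 1) * f ∧ 1 ≤ h ∧
      (t : ℝ) / (m - 1) * (1 + 2 * t / ((m - 1) * f)) ≤ (1 - ε / 2) * L ∧
      2 * (t : ℝ) * ((m : ℝ) * f) ^ t * (1 - Real.exp (-((1 - ε / 2) * L))) ^ N < 1 := by
  have hm2 : (2 : ℝ) < m := by
    have : 0 < 8 / ε := by positivity
    linarith
  have hm1 : (1 : ℝ) ≤ m := by linarith
  filter_upwards [ev_pow (48 * m ^ 2) 5 1 one_pos, ev_pow (32 * m ^ 2 * (9 * m ^ 2)) 8 (ε / 2)
    (by positivity), eventually_ge_atTop (8 : ℝ),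
    eventually_gt_atTop (8 / ε)] with L h1 h2 hL8 hLe
  intro t f h N ht2 hf1 hf2 hh htt hN
  rw [one_mul] at h1
  have hm0 : (0 : ℝ) < m := by linarith
  have hL0 : (0 : ℝ) < L := by linarith
  have ht0 : (1 : ℝ) ≤ t := by exact_mod_cast htt
  have hf0 : (1 : ℝ) ≤ f := by nlinarith
  have hfu : (f : ℝ) ≤ 2 * L ^ 2 := by nlinarith
  have hmL : 1 ≤ (m : ℝ) * L := by nlinarith
  have htu : (t : ℝ) ≤ 2 * m * L := by
    have : 0 ≤ ε * (m * L) := by positivity
    nlinarith
  set X : ℝ := Real.exp L / (m * (f : ℝ) ^ 2) with hX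
  have hden : 0 < (m : ℝ) * (f : ℝ) ^ 2 := by positivity
  have hden2 : (m : ℝ) * (f : ℝ) ^ 2 ≤ 4 * m * L ^ 4 := by
    have : (f : ℝ) ^ 2 ≤ (2 * L ^ 2) ^ 2 := by gcongr
    nlinarith
  have hX1 : Real.exp L / (4 * m * L ^ 4) ≤ X := by
    rw [hX]
    gcongr
  have hX2 : 12 * (m * L) ≤ X := by
    refine le_trans ?_ hX1
    rw [le_div_iff₀ (by positivity)]
    calc 12 * (m * L) * (4 * m * L ^ 4) = 48 * m ^ 2 * L ^ 5 := by ring
      _ ≤ _ := h1
  have hh1 : 1 ≤ h := by
    have : (1 : ℝ) ≤ h := by linarith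
    exact_mod_cast this
  have hNX : X / (8 * m * L) ≤ N := by
    have e1 : (X - 2) / (2 * (2 * m * L)) ≤ ((h : ℝ) - 1) / (2 * t) := by
      have : X - 2 ≤ (h : ℝ) - 1 := by linarith
      have h5 : 0 ≤ X - 2 := by linarith
      have h6 : 0 ≤ (h : ℝ) - 1 := by linarith
      exact div_le_div₀ h6 this (by positivity) (by linarith)
    refine le_trans ?_ ((sub_le_sub_right e1 1).trans hN)
    have e2 : (X - 2) / (2 * (2 * m * L)) - 1 - X / (8 * m * L) =
        (X - 4 - 8 * (m * L)) / (8 * m * L) := by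
      field_simp
      ring
    have e3 : 0 ≤ (X - 4 - 8 * (m * L)) / (8 * m * L) := by
      apply div_nonneg _ (by positivity)
      linarith
    linarith
  refine ⟨?_, hh1, ?_, ?_⟩
  · have hmn : 1 ≤ m := by exact_mod_cast hm1
    have : (2 * t : ℝ) ≤ ((m - 1 : ℕ) : ℝ) * f := by
      rw [Nat.cast_sub hmn, Nat.cast_one]
      have e1 : (m : ℝ) / 2 ≤ m - 1 := by linarith
      calc (2 * t : ℝ) ≤ m / 2 * (8 * L) := by linarith
        _ ≤ (m - 1) * f := by
          have e2 : 8 * L ≤ f := by nlinarith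
          exact mul_le_mul e1 e2 (by positivity) (by linarith)
    exact_mod_cast this
  · have hm10 : (0 : ℝ) < m - 1 := by linarith
    have e1 : (t : ℝ) / (m - 1) ≤ (1 - 7 * ε / 8) * L + 1 := by
      rw [div_le_iff₀ hm10]
      have e2 : 8 ≤ ε * (m - 1) := by
        have : 8 / ε ≤ m - 1 := by linarith
        rw [div_le_iff₀ hε] at this
        linarith
      have e3 : (1 - ε) * m ≤ (1 - 7 * ε / 8) * (m - 1) := by nlinarith
      have e4 : (1 - ε) * m * L ≤ (1 - 7 * ε / 8) * (m - 1) * L :=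
        mul_le_mul_of_nonneg_right e3 hL0.le
      nlinarith
    have e5 : 1 ≤ 3 * ε / 8 * L / 3 := by
      rw [div_lt_iff₀ hε] at hLe
      linarith
    have e6 : (t : ℝ) / (m - 1) ≤ L := by nlinarith
    have e7 : 0 ≤ (t : ℝ) / (m - 1) := by positivity
    have e8 : 2 * (t : ℝ) / ((m - 1) * f) ≤ 2 / L := by
      have e9 : 2 * (t : ℝ) / ((m - 1) * f) = 2 * (t / (m - 1)) / f := by
        field_simp
      rw [e9, div_le_div_iff₀ (by linarith) hL0]
      nlinarith
    calc (t : ℝ) / (m - 1) * (1 + 2 * t / ((m - 1) * f))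
        = (t : ℝ) / (m - 1) + (t : ℝ) / (m - 1) * (2 * t / ((m - 1) * f)) := by ring
      _ ≤ ((1 - 7 * ε / 8) * L + 1) + L * (2 / L) := by
          have e10 : 0 ≤ 2 * (t : ℝ) / ((m - 1) * f) := by positivity
          gcongr
      _ = (1 - 7 * ε / 8) * L + 3 := by
          field_simp
          ring
      _ ≤ _ := by linarith
  · set x : ℝ := Real.exp (-((1 - ε / 2) * L)) with hx
    have hx0 : 0 < x := Real.exp_pos _
    have hx1 : x ≤ 1 := by
      rw [hx]
      apply Real.exp_le_one_iff.2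
      nlinarith
    have a1 : (1 - x) ^ N ≤ Real.exp (-(N * x)) := by
      calc (1 - x) ^ N ≤ (Real.exp (-x)) ^ N :=
            pow_le_pow_left₀ (by linarith) (Real.one_sub_le_exp_neg x) N
        _ = Real.exp (-(N * x)) := by
            rw [← Real.exp_nat_mul]
            congr 1
            ring
    have a2 : 9 * (m : ℝ) ^ 2 * L ^ 3 ≤ N * x := by
      have b1 : X / (8 * m * L) * x ≤ N * x := mul_le_mul_of_nonneg_right hNX hx0.le
      refine le_trans ?_ b1
      have b2 : Real.exp L / (4 * m * L ^ 4) / (8 * m * L) * x ≤ X / (8 * m * L) * x := by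
        gcongr
      refine le_trans ?_ b2
      have b3 : Real.exp L / (4 * m * L ^ 4) / (8 * m * L) * x =
          Real.exp (ε / 2 * L) / (32 * m ^ 2 * L ^ 5) := by
        have : Real.exp L * x = Real.exp (ε / 2 * L) := by
          rw [hx, ← Real.exp_add]
          congr 1
          ring
        rw [← this]
        field_simp
        ring
      rw [b3, le_div_iff₀ (by positivity)]
      calc 9 * (m : ℝ) ^ 2 * L ^ 3 * (32 * m ^ 2 * L ^ 5) =
          32 * m ^ 2 * (9 * m ^ 2) * L ^ 8 := by ring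
        _ ≤ _ := h2
    have a3 : 2 * (t : ℝ) ≤ Real.exp (4 * m ^ 2 * L ^ 3) := by
      have c1 : 2 * (t : ℝ) ≤ 4 * m ^ 2 * L ^ 3 := by
        calc 2 * (t : ℝ) ≤ 4 * (m * L) := by linarith
          _ ≤ 4 * (m * L) * ((m * L) * L) := by
              refine le_mul_of_one_le_right (by positivity) ?_
              nlinarith
          _ = _ := by ring
      linarith [Real.add_one_le_exp (4 * (m : ℝ) ^ 2 * L ^ 3)]
    have a4 : ((m : ℝ) * f) ^ t ≤ Real.exp (4 * m ^ 2 * L ^ 3) := by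
      calc ((m : ℝ) * f) ^ t ≤ (Real.exp (m * f)) ^ t := by
            refine pow_le_pow_left₀ (by positivity) ?_ t
            linarith [Real.add_one_le_exp ((m : ℝ) * f)]
        _ = Real.exp (t * (m * f)) := by rw [← Real.exp_nat_mul]
        _ ≤ Real.exp (4 * m ^ 2 * L ^ 3) := by
            apply Real.exp_le_exp.2
            calc (t : ℝ) * (m * f) ≤ (2 * m * L) * (m * (2 * L ^ 2)) := by gcongr
              _ = _ := by ring
    calc 2 * (t : ℝ) * ((m : ℝ) * f) ^ t * (1 - x) ^ N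
        ≤ Real.exp (4 * m ^ 2 * L ^ 3) * Real.exp (4 * m ^ 2 * L ^ 3) *
          Real.exp (-(9 * m ^ 2 * L ^ 3)) := by
          have d1 : (1 - x) ^ N ≤ Real.exp (-(9 * m ^ 2 * L ^ 3)) :=
            a1.trans (Real.exp_le_exp.2 (by linarith))
          have d2 : 0 ≤ (1 - x) ^ N := pow_nonneg (by linarith) _
          gcongr
      _ = Real.exp (-(m ^ 2 * L ^ 3)) := by
          rw [← Real.exp_add, ← Real.exp_add]
          congr 1
          ring
      _ < 1 := by
          have : 0 < (m : ℝ) ^ 2 * L ^ 3 := by positivity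
          rw [← Real.exp_zero]
          exact Real.exp_lt_exp.2 (by linarith)

end PARaux

open PARaux in
/-- DR-PAR -/
theorem par : PAR := by
  intro ε hε hε1
  set m : ℕ := ⌈8 / ε⌉₊ + 2 with hm
  have hmr : 8 / ε + 2 ≤ (m : ℝ) := by
    rw [hm]
    push_cast
    linarith [Nat.le_ceil (8 / ε)]
  have hm2 : 2 ≤ m := by omega
  have hm0 : (0 : ℝ) < m := by exact_mod_cast (by omega : 0 < m)
  refine ⟨m, hm2, ?_⟩
  have hcore := core ε hε hε1 m hmr
  have htend : Tendsto (fun r : ℕ => Real.log r) atTop atTop :=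
    Real.tendsto_log_atTop.comp tendsto_natCast_atTop_atTop
  filter_upwards [htend.eventually hcore, htend.eventually (eventually_ge_atTop 1),
    eventually_ge_atTop 1] with r hr hL1 hr1
  set L : ℝ := Real.log r with hL
  have hL0 : 0 < L := by linarith
  have hr0 : (0 : ℝ) < r := by exact_mod_cast hr1
  have hexp : Real.exp L = r := Real.exp_log hr0
  have h1ε : 0 < 1 - ε := by linarith
  set f : ℕ := ⌈L ^ 2⌉₊ with hf
  set t : ℕ := ⌈(1 - ε) * L * m⌉₊ with ht
  have hf1 : 1 ≤ f := Nat.one_le_ceil_iff.2 (by positivity)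
  have ht1 : 1 ≤ t := Nat.one_le_ceil_iff.2 (by positivity)
  have hfl : L ^ 2 ≤ (f : ℝ) := Nat.le_ceil _
  have hfu : (f : ℝ) ≤ L ^ 2 + 1 := (Nat.ceil_lt_add_one (by positivity)).le
  have htl : (1 - ε) * L * m ≤ (t : ℝ) := Nat.le_ceil _
  have htu : (t : ℝ) ≤ (1 - ε) * m * L + 1 := by
    have := (Nat.ceil_lt_add_one (a := (1 - ε) * L * m) (by positivity)).le
    calc (t : ℝ) ≤ (1 - ε) * L * m + 1 := this
      _ = _ := by ring
  have hF0 : 0 < f * (m * f) := Nat.mul_pos (by omega) (Nat.mul_pos (by omega) (by omega))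
  set h : ℕ := r / (f * (m * f)) with hh
  have hlt : r < f * (m * f) * (h + 1) := Nat.lt_mul_div_succ r hF0
  have hh1 : Real.exp L / (m * (f : ℝ) ^ 2) - 1 ≤ (h : ℝ) := by
    rw [hexp, sub_le_iff_le_add, div_le_iff₀ (by positivity)]
    have : (r : ℝ) ≤ ((f * (m * f) * (h + 1) : ℕ) : ℝ) := by exact_mod_cast hlt.le
    push_cast at this
    calc (r : ℝ) ≤ f * (m * f) * (h + 1) := this
      _ = _ := by ring
  set N : ℕ := (h - 1) / (2 * t) with hN
  have hhge : 1 ≤ h → ((h : ℝ) - 1) / (2 * t) - 1 ≤ (N : ℝ) := by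
    intro h0
    have e1 : h - 1 < 2 * t * (N + 1) := Nat.lt_mul_div_succ (h - 1) (by omega)
    have e2 : h ≤ 2 * t * (N + 1) + 1 := by omega
    have e3 : (h : ℝ) ≤ 2 * t * (N + 1) + 1 := by exact_mod_cast e2
    have ht0 : (0 : ℝ) < t := by exact_mod_cast ht1
    rw [sub_le_iff_le_add, div_le_iff₀ (by positivity)]
    linarith
  have hhge' : ((h : ℝ) - 1) / (2 * t) - 1 ≤ (N : ℝ) := by
    by_cases h0 : 1 ≤ h
    · exact hhge h0
    · have e1 : h = 0 := Nat.eq_zero_of_not_pos h0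
      have ht0 : (0 : ℝ) < t := by exact_mod_cast ht1
      have e2 : ((h : ℝ) - 1) / (2 * t) ≤ 0 := by
        apply div_nonpos_of_nonpos_of_nonneg
        · rw [e1]
          simp
        · positivity
      have e3 : (0 : ℝ) ≤ N := Nat.cast_nonneg _
      linarith
  obtain ⟨c1, c2, c3, c4⟩ := hr t f h N htu hfl hfu hh1 ht1 hhge'
  refine ⟨f, t, N, h, hf1, ht1, c1, htl, ?_, ?_, ?_, ?_⟩
  · have e1 : 2 * t * N ≤ h - 1 := Nat.mul_div_le (h - 1) (2 * t)
    omega
  · exact Nat.mul_div_le r (f * (m * f))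
  · have e1 : f * (m * f) * (h + 1) = f * (m * f) * h + f * (m * f) := by ring
    have e2 : f * (m * f) ≤ (m * f) ^ 2 := by
      rw [sq]
      exact Nat.mul_le_mul_right _ (Nat.le_mul_of_pos_left f (by omega))
    omega
  · have hm10 : (0 : ℝ) < m - 1 := by
      have : (2 : ℝ) ≤ m := by exact_mod_cast hm2
      linarith
    refine lt_of_le_of_lt ?_ c4
    have e0 : ((t : ℝ) / (m - 1)) * (1 + 2 * ((t : ℝ) / ((m - 1) * f))) =
        (t : ℝ) / (m - 1) * (1 + 2 * t / ((m - 1) * f)) := by ring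
    rw [e0]
    have e1 : Real.exp (-((1 - ε / 2) * L)) ≤
        Real.exp (-((t : ℝ) / (m - 1) * (1 + 2 * t / ((m - 1) * f)))) :=
      Real.exp_le_exp.2 (by linarith)
    have e2 : Real.exp (-((t : ℝ) / (m - 1) * (1 + 2 * t / ((m - 1) * f)))) ≤ 1 := by
      apply Real.exp_le_one_iff.2
      have : 0 ≤ (t : ℝ) / (m - 1) * (1 + 2 * t / ((m - 1) * f)) := by positivity
      linarith
    push_cast
    refine mul_le_mul_of_nonneg_left ?_ (by positivity)
    exact pow_le_pow_left₀ (by linarith) (by linarith) N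

end Pool.Agent.R467.DR
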